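import Pool.Agent.Lib.MP_a05470_co.FrontierForces5
import Pool.Agent.Lib.MP_a05470_co.CoreForces
import Pool.Agent.Lib.MP_a05470_co.General3
import Pool.Agent.Lib.MP_a05470_co.FP.Main

/-!
# The minimum extremal density of a 2-coloured complete graph
-/

set_option autoImplicit false

namespace Pool.Agent.Results.MP_a05470_co.AllGraphs

open Filter Topology Classical Pool.Agent.Lib.MP_a05470_co

/-- Every component of `G` is a complete bipartite graph with two equal parts: `κ x` is a label of
the component of `x`, and `σ x` is the side of `x` in it. -/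
def EqualParts {V : Type} [Fintype V] (G : SimpleGraph V) : Prop :=
  ∃ (κ : V → V) (σ : V → Bool), (∀ x y, G.Adj x y ↔ κ x = κ y ∧ σ x ≠ σ y) ∧
    ∀ i, (Finset.univ.filter (fun x => κ x = i ∧ σ x = true)).card =
      (Finset.univ.filter (fun x => κ x = i ∧ σ x = false)).card

/-- For every `p` in `[0,1]` the limit `μ_p(H)` of `ex_p(n,H) / C(n,2)` exists and is at least
`1 - 1/(|H|-1)`, and for some `p` in `[0,1]` it is equal to `1 - 1/(|H|-1)`; in other words,
`min_p μ_p(H) = 1 - 1/(|H|-1)`. Here `H` is the 2-coloured complete graph with red graph `H` and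
blue graph `Hᶜ`. -/
def MinDensity {V : Type} [Fintype V] (H : SimpleGraph V) : Prop :=
  (∀ p : ℝ, 0 ≤ p → p ≤ 1 →
    ∃ μ : ℝ, Tendsto (fun n : ℕ => ex p H Hᶜ n / (n.choose 2 : ℝ)) atTop (𝓝 μ) ∧
      1 - 1 / ((Fintype.card V : ℝ) - 1) ≤ μ) ∧
  ∃ p : ℝ, 0 ≤ p ∧ p ≤ 1 ∧
    Tendsto (fun n : ℕ => ex p H Hᶜ n / (n.choose 2 : ℝ)) atTop
      (𝓝 (1 - 1 / ((Fintype.card V : ℝ) - 1)))

theorem minDensity_of_forces {V : Type} [Fintype V] (H : SimpleGraph V)
    (hV : 2 ≤ Fintype.card V)
    (hF : ∃ a b : ℝ, 0 ≤ a ∧ 0 ≤ b ∧ a + b = (Fintype.card V : ℝ) - 1 ∧ Forces a b H Hᶜ) :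
    MinDensity H := by
  have hlow : ∀ p μ : ℝ, Tendsto (fun n : ℕ => ex p H Hᶜ n / (n.choose 2 : ℝ)) atTop (𝓝 μ) →
      1 - 1 / ((Fintype.card V : ℝ) - 1) ≤ μ := fun p μ hμ => mu_ge H hV hμ
  have hH : ∃ x y, H.Adj x y ∨ Hᶜ.Adj x y := by
    obtain ⟨x, y, hxy⟩ := Fintype.one_lt_card_iff.1 (show 1 < Fintype.card V by omega)
    refine ⟨x, y, ?_⟩
    by_cases h : H.Adj x y
    · exact Or.inl h
    · exact Or.inr (compl_adj_of hxy h)
  refine ⟨fun p hp0 hp1 => ?_, ?_⟩
  · obtain ⟨μ, hμ⟩ := exists_limit hH hp0 hp1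
    exact ⟨μ, hμ, hlow p μ hμ⟩
  obtain ⟨a, b, ha, hb, hab, hF⟩ := hF
  have hV' : (2 : ℝ) ≤ Fintype.card V := by exact_mod_cast hV
  have habpos : 0 < a + b := by
    rw [hab]
    linarith
  obtain ⟨μ, hμ, hle⟩ := mu_le_of_forces ha hb habpos hH hF
  have h3 := hlow _ μ hμ
  rw [hab] at hle
  have h4 : μ = 1 - 1 / ((Fintype.card V : ℝ) - 1) := le_antisymm hle h3
  refine ⟨a / (a + b), by positivity, ?_, ?_⟩
  · rw [div_le_one habpos]
    linarith
  · rw [← h4]
    exact hμ

/-- the number of vertices is even -/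
theorem even_card {V : Type} [Fintype V] {G : SimpleGraph V} (h : EqualParts G) :
    ∃ t, Fintype.card V = 2 * t := by
  obtain ⟨κ, σ, -, hbal⟩ := h
  obtain ⟨τ, _⟩ := Frontier.exists_tau κ σ hbal
  refine ⟨Fintype.card {x : V // σ x = true}, ?_⟩
  have h1 := Fintype.card_congr τ
  have h3 := Fintype.card_congr (Equiv.sumCompl (fun x : V => σ x = true))
  rw [Fintype.card_sum] at h3
  have h4 : Fintype.card {x : V // ¬ σ x = true} = Fintype.card {x : V // σ x = false} :=
    Fintype.card_congr (Equiv.subtypeEquivRight (fun x => by simp))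
  omega

/-- forced with some pair of thresholds -/
def Forced {V : Type} [Fintype V] (G : SimpleGraph V) : Prop :=
  ∃ a b : ℝ, 0 ≤ a ∧ 0 ≤ b ∧ a + b = (Fintype.card V : ℝ) - 1 ∧ Forces a b G Gᶜ

theorem Forced.compl {V : Type} [Fintype V] {G : SimpleGraph V} (h : Forced Gᶜ) : Forced G := by
  obtain ⟨a, b, ha, hb, hab, hF⟩ := h
  have h1 := forces_swap hF
  rw [compl_compl] at h1
  exact ⟨b, a, hb, ha, by rw [← hab]; ring, h1⟩

/-- a graph without edges -/
theorem forced_bot {V : Type} [Fintype V] {G : SimpleGraph V} (hV : 1 ≤ Fintype.card V)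
    (hG : ∀ x y, ¬ G.Adj x y) : Forced G := by
  have hE : IsEmpty {x : V // x ∉ (Finset.univ : Finset V)} :=
    ⟨fun x => x.2 (Finset.mem_univ _)⟩
  refine forces_koenig' G Finset.univ (fun x _ y _ => hG x y) ?_ (fun x => hE.elim x)
    (fun x => hE.elim x) (fun x => hE.elim x)
  rw [Finset.card_univ]
  omega

/-- a graph on two vertices -/
theorem forced_two {V : Type} [Fintype V] (G : SimpleGraph V) (hV : Fintype.card V = 2) :
    Forced G := by
  obtain ⟨u, v, _, huniv⟩ := Finset.card_eq_two.1 (show (Finset.univ : Finset V).card = 2 by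
    rw [Finset.card_univ]
    exact hV)
  have hmem : ∀ x, x = u ∨ x = v := by
    intro x
    have hx : x ∈ (Finset.univ : Finset V) := Finset.mem_univ x
    rw [huniv] at hx
    simpa using hx
  by_cases h : G.Adj u v
  · apply Forced.compl
    apply forced_bot (by omega)
    intro x y hxy
    rw [SimpleGraph.compl_adj] at hxy
    rcases hmem x with rfl | rfl
    · rcases hmem y with rfl | rfl
      · exact hxy.1 rfl
      · exact hxy.2 h
    · rcases hmem y with rfl | rfl
      · exact hxy.2 h.symm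
      · exact hxy.1 rfl
  · apply forced_bot (by omega)
    intro x y hxy
    rcases hmem x with rfl | rfl
    · rcases hmem y with rfl | rfl
      · exact G.irrefl hxy
      · exact h hxy
    · rcases hmem y with rfl | rfl
      · exact h hxy.symm
      · exact G.irrefl hxy

theorem forced_equalParts {V : Type} [Fintype V] {G : SimpleGraph V} (h : EqualParts G)
    (hV : 2 ≤ Fintype.card V) (h4 : Fintype.card V ≠ 4) (h6 : Fintype.card V ≠ 6)
    (h8 : Fintype.card V ≠ 8) : Forced G := by
  obtain ⟨t, ht⟩ := even_card h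
  by_cases h1 : t = 1
  · subst h1
    exact forced_two G ht
  · obtain ⟨κ, σ, h2, h3⟩ := h
    exact Frontier.forces_equalParts5 G (t := t) (by omega) ht κ σ h2 h3

/-- large chromatic number of the complement -/
theorem forced_large {V : Type} [Fintype V] {G : SimpleGraph V} (hV : 2 ≤ Fintype.card V)
    (h : Fintype.card V + 2 ≤ 2 * JT.th G Finset.univ) : Forced G := by
  have hle := JT.th_le_card (R := G) Finset.univ
  rw [Finset.card_univ] at hle
  by_cases h0 : JT.th G Finset.univ = Fintype.card V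
  · apply forced_bot (by omega)
    apply no_edge_of_not_colorable (n := Fintype.card V - 1) (by omega)
    intro hc
    have := JT.th_le_of_colorable hc
    omega
  · refine ⟨((Fintype.card V - JT.th G Finset.univ : ℕ) : ℝ), ((JT.th G Finset.univ - 1 : ℕ) : ℝ),
      by positivity, by positivity, ?_, forces_J (by omega) (by omega) (by omega) (by omega)⟩
    rw [Nat.cast_sub hle, Nat.cast_sub (by omega)]
    push_cast
    ring

/-- all graphs -/
theorem forced_all {V : Type} [Fintype V] {G : SimpleGraph V} (hV : 2 ≤ Fintype.card V)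
    (h2 : Fintype.card V = 4 ∨ Fintype.card V = 6 ∨ Fintype.card V = 8 →
      ¬ EqualParts G ∧ ¬ EqualParts Gᶜ) : Forced G := by
  have hbal : ∀ (G : SimpleGraph V), ¬ EqualParts G →
      ∀ (κ : V → V) (σ : V → Bool), ¬ BalOn G Finset.univ κ σ := by
    rintro G hG κ σ ⟨h1, h2⟩
    exact hG ⟨κ, σ, fun x y => h1 x (Finset.mem_univ x) y (Finset.mem_univ y), h2⟩
  by_cases hE1 : EqualParts G
  · refine forced_equalParts hE1 hV ?_ ?_ ?_ <;> intro h3
    · exact (h2 (by omega)).1 hE1
    · exact (h2 (by omega)).1 hE1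
    · exact (h2 (by omega)).1 hE1
  by_cases hE2 : EqualParts Gᶜ
  · apply Forced.compl
    refine forced_equalParts hE2 hV ?_ ?_ ?_ <;> intro h3
    · exact (h2 (by omega)).2 hE2
    · exact (h2 (by omega)).2 hE2
    · exact (h2 (by omega)).2 hE2
  by_cases hl1 : Fintype.card V + 2 ≤ 2 * JT.th G Finset.univ
  · exact forced_large hV hl1
  by_cases hl2 : Fintype.card V + 2 ≤ 2 * JT.th Gᶜ Finset.univ
  · exact (forced_large hV hl2).compl
  have h3 := th_eq_chi (H := G)
  have h4 := th_eq_chi (H := Gᶜ)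
  rw [compl_compl] at h4
  exact forces_balanced _ hV (hbal G hE1) (hbal Gᶜ hE2) (by omega) (by omega)

/-- **The answer to Q1.** Let `H` be a 2-coloured complete graph without green edges on at least two
vertices, given by its red graph. If `|H| ∈ {4, 6, 8}`, suppose that neither all components of the
red graph nor all components of the blue graph are complete bipartite with equal parts. Then
`min_p μ_p(H) = 1 - 1/(|H|-1)`: the limit `μ_p(H)` exists and is at least `1 - 1/(|H|-1)` for all
`p` in `[0,1]`, with equality for some `p`. -/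
theorem result (V : Type) [Fintype V] (H : SimpleGraph V) (hV : 2 ≤ Fintype.card V)
    (hE : Fintype.card V = 4 ∨ Fintype.card V = 6 ∨ Fintype.card V = 8 →
      ¬ EqualParts H ∧ ¬ EqualParts Hᶜ) : MinDensity H :=
  minDensity_of_forces H hV (forced_all hV hE)

end Pool.Agent.Results.MP_a05470_co.AllGraphs
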