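import Pool.Agent.Lib.MP_a05470_co.HalfValue
import Pool.Agent.Lib.MP_a05470_co.AlmostHalf
import Pool.Agent.Lib.MP_a05470_co.Random3

set_option autoImplicit false

namespace Pool.Agent.Results.MP_a05470_co.HalfDensity

open Filter Topology Classical Pool.Agent.Lib.MP_a05470_co

/-- Every component of `G` is a complete bipartite graph with two equal parts: `κ x` is a label of
the component of `x`, and `σ x` is the side of `x` in it. -/
def EqualParts {V : Type} [Fintype V] (G : SimpleGraph V) : Prop :=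
  ∃ (κ : V → V) (σ : V → Bool), (∀ x y, G.Adj x y ↔ κ x = κ y ∧ σ x ≠ σ y) ∧
    ∀ i, (Finset.univ.filter (fun x => κ x = i ∧ σ x = true)).card =
      (Finset.univ.filter (fun x => κ x = i ∧ σ x = false)).card

/-- The number `D(H)`: it is `|H|` if all components of `H` or all components of the complement are
complete bipartite with equal parts, and otherwise it is the maximum of `|H| - 1`, `2 (χ(H) - 1)`
and `2 (χ(Hᶜ) - 1)`. -/
noncomputable def D {V : Type} [Fintype V] (H : SimpleGraph V) : ℕ :=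
  if EqualParts H ∨ EqualParts Hᶜ then Fintype.card V
  else max (Fintype.card V - 1)
    (2 * (max H.chromaticNumber.toNat Hᶜ.chromaticNumber.toNat - 1))

/-- The value of `μ_{1/2}` for one `H`. -/
theorem half_value {V : Type} [Fintype V] (H : SimpleGraph V) (hV : 2 ≤ Fintype.card V) :
    Tendsto (fun n : ℕ => ex (1 / 2) H Hᶜ n / (n.choose 2 : ℝ)) atTop
      (𝓝 (1 - 1 / (D H : ℝ))) ∧
    (¬ EqualParts H → ¬ EqualParts Hᶜ → 2 * H.chromaticNumber.toNat ≤ Fintype.card V + 1 →
      2 * Hᶜ.chromaticNumber.toNat ≤ Fintype.card V + 1 →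
      Tendsto (fun n : ℕ => ex (1 / 2) H Hᶜ n / (n.choose 2 : ℝ)) atTop
        (𝓝 (1 - 1 / ((Fintype.card V : ℝ) - 1)))) ∧
    ∀ p μ : ℝ, 0 ≤ p → p ≤ 1 →
      Tendsto (fun n : ℕ => ex p H Hᶜ n / (n.choose 2 : ℝ)) atTop (𝓝 μ) →
      1 - 1 / ((Fintype.card V : ℝ) - 1) ≤ μ := by
  have hbal : ∀ G : SimpleGraph V, EqualParts G ↔ ∃ (κ : V → V) (σ : V → Bool),
      BalOn G Finset.univ κ σ := by
    intro G
    constructor
    · rintro ⟨κ, σ, h1, h2⟩
      exact ⟨κ, σ, fun x _ y _ => h1 x y, h2⟩
    · rintro ⟨κ, σ, h1, h2⟩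
      exact ⟨κ, σ, fun x y => h1 x (Finset.mem_univ x) y (Finset.mem_univ y), h2⟩
  have hmain : Tendsto (fun n : ℕ => ex (1 / 2) H Hᶜ n / (n.choose 2 : ℝ)) atTop
      (𝓝 (1 - 1 / (D H : ℝ))) := by
    by_cases h1 : EqualParts H
    · have hD : D H = Fintype.card V := if_pos (Or.inl h1)
      rw [hD]
      obtain ⟨κ, σ, hB⟩ := (hbal H).1 h1
      exact half_bal hV hB
    · by_cases h2 : EqualParts Hᶜ
      · have hD : D H = Fintype.card V := if_pos (Or.inr h2)
        rw [hD]
        obtain ⟨κ, σ, hB⟩ := (hbal Hᶜ).1 h2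
        have h3 := half_bal hV hB
        rw [compl_compl] at h3
        have h5 : (fun n : ℕ => ex (1 / 2) H Hᶜ n / (n.choose 2 : ℝ)) =
            (fun n : ℕ => ex (1 / 2) Hᶜ H n / (n.choose 2 : ℝ)) := by
          funext n
          rw [ex_swap]
        rw [h5]
        exact h3
      · have hD : D H = max (Fintype.card V - 1)
            (2 * (max H.chromaticNumber.toNat Hᶜ.chromaticNumber.toNat - 1)) :=
          if_neg (not_or.2 ⟨h1, h2⟩)
        rw [hD]
        set K := max H.chromaticNumber.toNat Hᶜ.chromaticNumber.toNat with hK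
        have hK1 : H.Colorable K := (colorable_iff_toNat H K).2 (le_max_left _ _)
        have hK2 : Hᶜ.Colorable K := (colorable_iff_toNat Hᶜ K).2 (le_max_right _ _)
        have hK3 : 2 ≤ K := by
          obtain ⟨x, y, hxy⟩ := Fintype.one_lt_card_iff.1 (show 1 < Fintype.card V by omega)
          by_contra hcon
          push Not at hcon
          have e1 := hK1.mono (show K ≤ 1 by omega)
          have e2 := hK2.mono (show K ≤ 1 by omega)
          obtain ⟨C1⟩ := e1
          obtain ⟨C2⟩ := e2
          by_cases h : H.Adj x y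
          · exact C1.valid h (Subsingleton.elim _ _)
          · exact C2.valid (compl_adj_of hxy h) (Subsingleton.elim _ _)
        have hK4 : ¬ H.Colorable (K - 1) ∨ ¬ Hᶜ.Colorable (K - 1) := by
          rw [colorable_iff_toNat, colorable_iff_toNat]
          rcases max_choice H.chromaticNumber.toNat Hᶜ.chromaticNumber.toNat with h | h
          · left
            omega
          · right
            omega
        exact half_general hV (fun κ σ hB => h1 ((hbal H).2 ⟨κ, σ, hB⟩))
          (fun κ σ hB => h2 ((hbal Hᶜ).2 ⟨κ, σ, hB⟩)) hK3 hK1 hK2 hK4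
  refine ⟨hmain, ?_, fun p μ _ _ hμ => mu_ge H hV hμ⟩
  intro h1 h2 h3 h4
  have hD : D H = Fintype.card V - 1 := by
    have e1 : D H = max (Fintype.card V - 1)
        (2 * (max H.chromaticNumber.toNat Hᶜ.chromaticNumber.toNat - 1)) :=
      if_neg (not_or.2 ⟨h1, h2⟩)
    rw [e1]
    omega
  rw [hD] at hmain
  have hcast : ((Fintype.card V - 1 : ℕ) : ℝ) = (Fintype.card V : ℝ) - 1 := by
    push_cast [show 1 ≤ Fintype.card V by omega]
    ring
  rwa [hcast] at hmain

/-- For almost all `R` the value is `1 - 1/(h-1)`. -/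
theorem almost_all :
    Tendsto (fun h : ℕ =>
      ({R : SimpleGraph (Fin h) |
        Tendsto (fun n : ℕ => ex (1 / 2) R Rᶜ n / (n.choose 2 : ℝ)) atTop
          (𝓝 (1 - 1 / ((h : ℝ) - 1)))}.ncard : ℝ) / (Nat.card (SimpleGraph (Fin h)) : ℝ))
      atTop (𝓝 1) := by
  refine tendsto_of_tendsto_of_tendsto_of_le_of_le' tendsto_full tendsto_const_nhds ?_ ?_
  · filter_upwards [eventually_ge_atTop 2] with h hh
    have key : ∀ R : SimpleGraph (Fin h), (∀ a b, a + b = h / 2 → HasMatching R a b) →
        Tendsto (fun n : ℕ => ex (1 / 2) R Rᶜ n / (n.choose 2 : ℝ)) atTop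
          (𝓝 (1 - 1 / ((h : ℝ) - 1))) := by
      intro R hR
      have hcardV : Fintype.card (Fin h) = h := Fintype.card_fin h
      have hcol : ∀ G : SimpleGraph (Fin h), G.Colorable (h - h / 2) →
          2 * G.chromaticNumber.toNat ≤ Fintype.card (Fin h) + 1 := by
        intro G hG
        have h1 : G.chromaticNumber ≤ ((h - h / 2 : ℕ) : ℕ∞) := hG.chromaticNumber_le
        have h2 : G.chromaticNumber.toNat ≤ h - h / 2 := by
          have := ENat.toNat_le_toNat h1 (ENat.natCast_ne_top _)
          rwa [ENat.toNat_natCast] at this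
        rw [hcardV]
        omega
      have hredge : ∀ (x y : Fin h), R.Adj x y → ¬ Rᶜ.Adj x y := by
        intro x y hxy hc
        exact (SimpleGraph.compl_adj R x y).1 hc |>.2 hxy
      have hc1 : R.Colorable (h - h / 2) := by
        obtain ⟨f, hf, -, hfB⟩ := hR 0 (h / 2) (by omega)
        have := colorable_of_nonedges R (b := h / 2) (fun x => f (Sum.inr x.1, x.2))
          (fun x y hxy => by
            have := hf hxy
            simp only [Prod.mk.injEq, Sum.inr.injEq] at this
            exact Prod.ext this.1 this.2) (fun j => hfB j)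
        rwa [hcardV] at this
      have hc2 : Rᶜ.Colorable (h - h / 2) := by
        obtain ⟨f, hf, hfR, -⟩ := hR (h / 2) 0 (by omega)
        have := colorable_of_nonedges Rᶜ (b := h / 2) (fun x => f (Sum.inl x.1, x.2))
          (fun x y hxy => by
            have := hf hxy
            simp only [Prod.mk.injEq, Sum.inl.injEq] at this
            exact Prod.ext this.1 this.2) (fun j => hredge _ _ (hfR j))
        rwa [hcardV] at this
      have hE1 : ¬ EqualParts R := by
        rintro ⟨κ, σ, h1, h2⟩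
        have hev : Even h := by
          have := even_of_equal κ σ (by convert h2)
          rwa [hcardV] at this
        obtain ⟨m, hm⟩ := hev
        obtain ⟨f, hf, hfR, hfB⟩ := hR (m - 1) 1 (by omega)
        exact not_equal_of_pairing R f hf (by rw [hcardV]; omega) hfR (hfB 0) κ σ h1
          (by convert h2)
      have hE2 : ¬ EqualParts Rᶜ := by
        rintro ⟨κ, σ, h1, h2⟩
        have hev : Even h := by
          have := even_of_equal κ σ (by convert h2)
          rwa [hcardV] at this
        obtain ⟨m, hm⟩ := hev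
        obtain ⟨f, hf, hfR, hfB⟩ := hR 1 (m - 1) (by omega)
        refine not_equal_of_pairing Rᶜ (fun x => f (Sum.swap x.1, x.2)) (fun x y hxy => ?_)
          (by rw [hcardV]; omega) (fun i => ?_) ?_ κ σ h1 (by convert h2)
        · have h3 := hf hxy
          simp only [Prod.mk.injEq] at h3
          have h4 : x.1 = y.1 := by
            have := congrArg Sum.swap h3.1
            simpa using this
          exact Prod.ext h4 h3.2
        · refine (SimpleGraph.compl_adj R _ _).2 ⟨fun he => ?_, hfB i⟩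
          have := hf he
          simp at this
        · exact hredge _ _ (hfR 0)
      have h5 := (half_value R (by rw [hcardV]; exact hh)).2.1 hE1 hE2 (hcol R hc1) (hcol Rᶜ hc2)
      rwa [hcardV] at h5
    have h1 : Set.ncard {R : SimpleGraph (Fin h) | ∀ a b, a + b = h / 2 → HasMatching R a b} ≤
        Set.ncard {R : SimpleGraph (Fin h) |
          Tendsto (fun n : ℕ => ex (1 / 2) R Rᶜ n / (n.choose 2 : ℝ)) atTop
            (𝓝 (1 - 1 / ((h : ℝ) - 1)))} :=
      Set.ncard_le_ncard (fun R hR => key R hR) (Set.toFinite _)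
    have h2 : (Set.ncard {R : SimpleGraph (Fin h) |
        ∀ a b, a + b = h / 2 → HasMatching R a b} : ℝ) ≤
        (Set.ncard {R : SimpleGraph (Fin h) |
          Tendsto (fun n : ℕ => ex (1 / 2) R Rᶜ n / (n.choose 2 : ℝ)) atTop
            (𝓝 (1 - 1 / ((h : ℝ) - 1)))} : ℝ) := by exact_mod_cast h1
    exact div_le_div_of_nonneg_right h2 (by positivity)
  · filter_upwards with h
    apply div_le_one_of_le₀ _ (by positivity)
    have h1 : Set.ncard {R : SimpleGraph (Fin h) |
          Tendsto (fun n : ℕ => ex (1 / 2) R Rᶜ n / (n.choose 2 : ℝ)) atTop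
            (𝓝 (1 - 1 / ((h : ℝ) - 1)))} ≤ Nat.card (SimpleGraph (Fin h)) := by
      rw [← Set.ncard_univ]
      exact Set.ncard_le_ncard (Set.subset_univ _)
    exact_mod_cast h1

/-- (1) Let `H` be a 2-coloured complete graph with red graph `H` and blue graph `Hᶜ` on at least
two vertices. Then `μ_{1/2}(H) = 1 - 1/D(H)`. In particular, if `χ(H)` and `χ(Hᶜ)` are at most
`(|H|+1)/2` and neither all components of `H` nor all those of `Hᶜ` are complete bipartite with
equal parts, then `μ_{1/2}(H) = 1 - 1/(|H|-1)`; and `μ_p(H) ≥ 1 - 1/(|H|-1)` for every `p`.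
(2) The proportion of the `H` on `h` labelled vertices with `μ_{1/2}(H) = 1 - 1/(h-1)` tends to
`1`. -/
theorem result :
    (∀ (V : Type) [Fintype V] (H : SimpleGraph V), 2 ≤ Fintype.card V →
      Tendsto (fun n : ℕ => ex (1 / 2) H Hᶜ n / (n.choose 2 : ℝ)) atTop
        (𝓝 (1 - 1 / (D H : ℝ))) ∧
      (¬ EqualParts H → ¬ EqualParts Hᶜ → 2 * H.chromaticNumber.toNat ≤ Fintype.card V + 1 →
        2 * Hᶜ.chromaticNumber.toNat ≤ Fintype.card V + 1 →
        Tendsto (fun n : ℕ => ex (1 / 2) H Hᶜ n / (n.choose 2 : ℝ)) atTop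
          (𝓝 (1 - 1 / ((Fintype.card V : ℝ) - 1)))) ∧
      ∀ p μ : ℝ, 0 ≤ p → p ≤ 1 →
        Tendsto (fun n : ℕ => ex p H Hᶜ n / (n.choose 2 : ℝ)) atTop (𝓝 μ) →
        1 - 1 / ((Fintype.card V : ℝ) - 1) ≤ μ) ∧
    Tendsto (fun h : ℕ =>
      ({R : SimpleGraph (Fin h) |
        Tendsto (fun n : ℕ => ex (1 / 2) R Rᶜ n / (n.choose 2 : ℝ)) atTop
          (𝓝 (1 - 1 / ((h : ℝ) - 1)))}.ncard : ℝ) / (Nat.card (SimpleGraph (Fin h)) : ℝ))
      atTop (𝓝 1) :=
  ⟨fun _ _ H hV => half_value H hV, almost_all⟩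

end Pool.Agent.Results.MP_a05470_co.HalfDensity
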